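import Pool.Agent.Helper66.HK.NoPairP
import Pool.Agent.Helper94.HK.Fin
import Pool.Agent.Helper64.HK.ExMems
import Pool.Agent.Helper55.HK.Sp

/-!
# Project HK: two coprime polynomials do not vanish together at all rational points
-/

set_option autoImplicit false

namespace Pool.Agent.Helper66.HK

open MvPolynomial Pool.Agent.Helper64.HK Pool.Agent.Helper24.HK Pool.Agent.Helper24.HM
open Pool.Agent.Helper28.HN (I aff)

/-- From `dyn`, `fin_x`, ELIM, `z_aff`. -/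
theorem nopair_p {p : ℕ} [Fact p.Prime] (hp : p ≠ 2) {k m : ℕ} (_hm : 2 ≤ m)
    {a : Fin (k + 1) → Fin (m + 1)} (c : Ix a → ℤ_[p]) (s : Sel k m) (x : Un k m → ℤ_[p])
    (h : Cfg c s x) (K : Subfield ℚ_[p]) (cK : Ix a → K)
    (hc : ∀ e, ((cK e : K) : ℚ_[p]) = (c e : ℚ_[p])) (hx : ∀ i, (x i : ℚ_[p]) ∈ K) :
    NoPair cK := by
  obtain ⟨L, hL⟩ := Pool.Agent.Helper94.HK.Fr.exists_loc c
  obtain ⟨R, hR⟩ := Pool.Agent.Helper94.HK.Fr.exists_ref hp c s x h L hL
  obtain ⟨M, -, hM, x0, hst⟩ := Pool.Agent.Helper64.HK.P.exists_mems hp c s x h L hL R hR K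
    (fun e => by rw [← hc e]; exact (cK e).2) hx
  exact nopair_p_of c s x K cK hc L hL R hR M (fun N x z hm => (hM N x z).mp hm) hst
    (fun v hv => Pool.Agent.Helper55.HK.detM_unit c s x h v hv)
    (fun v hv ζ hζ => Pool.Agent.Helper55.HK.span_dir c s x h v hv ζ hζ)

end Pool.Agent.Helper66.HK
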