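import Mathlib

/-!
# Multihomogenisation

For a polynomial `F` in the affine coordinates of the factors `j.succ`, `j : Fin k`, there is a
polynomial `H` in the homogeneous coordinates of the factors `Fin (k + 1)` which vanishes if one of
the first coordinates is zero, and whose value otherwise is a product of powers of the first
coordinates and of the value of `F` at the affine point.
-/

namespace Pool.Agent.Helper66.HK

open MvPolynomial

/-- Multihomogenisation. -/
theorem exists_mh {K : Type*} [Field K] {k m : ℕ} (F : MvPolynomial (Fin k × Fin (m + 1)) K) :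
    ∃ (d : ℕ) (H : MvPolynomial (Fin (k + 1) × Fin (m + 2)) K), 0 < d ∧
      ∀ (S : Type*) [Field S] [Algebra K S] (P : Fin (k + 1) → Fin (m + 2) → S),
        ((∃ j, P j 0 = 0) → aeval (fun q : Fin (k + 1) × Fin (m + 2) => P q.1 q.2) H = 0) ∧
        ((∀ j, P j 0 ≠ 0) → aeval (fun q : Fin (k + 1) × Fin (m + 2) => P q.1 q.2) H =
          (∏ j, P j 0) ^ d * aeval (fun q : Fin k × Fin (m + 1) =>
            P q.1.succ q.2.succ / P q.1.succ 0) F) := by
  classical
  set d := F.totalDegree + 1 with hd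
  -- the degree in one factor
  set dg : (Fin k × Fin (m + 1) →₀ ℕ) → Fin k → ℕ := fun a j => ∑ i, a (j, i) with hdg
  have hle : ∀ a ∈ F.support, ∀ j, dg a j < d := by
    intro a ha j
    have h1 : dg a j ≤ a.degree := by
      rw [Finsupp.degree_eq_sum, Fintype.sum_prod_type]
      exact Finset.single_le_sum (f := fun j => ∑ i, a (j, i)) (fun _ _ => Nat.zero_le _)
        (Finset.mem_univ j)
    have h2 : a.degree ≤ F.totalDegree := le_totalDegree ha
    omega
  refine ⟨d, ∑ a ∈ F.support, C (coeff a F) * (X (0, 0) ^ d *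
    ((∏ j : Fin k, X (j.succ, 0) ^ (d - dg a j)) *
      ∏ q : Fin k × Fin (m + 1), X (q.1.succ, q.2.succ) ^ a q)), by omega, fun S _ _ P => ?_⟩
  have hval : aeval (fun q : Fin (k + 1) × Fin (m + 2) => P q.1 q.2)
      (∑ a ∈ F.support, C (coeff a F) * (X (0, 0) ^ d *
        ((∏ j : Fin k, X (j.succ, 0) ^ (d - dg a j)) *
          ∏ q : Fin k × Fin (m + 1), X (q.1.succ, q.2.succ) ^ a q)) :
            MvPolynomial (Fin (k + 1) × Fin (m + 2)) K) =
      ∑ a ∈ F.support, algebraMap K S (coeff a F) * (P 0 0 ^ d *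
        ((∏ j : Fin k, P j.succ 0 ^ (d - dg a j)) *
          ∏ q : Fin k × Fin (m + 1), P q.1.succ q.2.succ ^ a q)) := by
    simp only [map_sum, map_mul, map_prod, map_pow, aeval_X, algHom_C]
  rw [hval]
  constructor
  · rintro ⟨j, hj⟩
    refine Finset.sum_eq_zero fun a ha => ?_
    revert hj
    refine Fin.cases (fun hj => ?_) (fun j hj => ?_) j
    · rw [hj, zero_pow (by omega), zero_mul, mul_zero]
    · have h1 : ∏ j : Fin k, P j.succ 0 ^ (d - dg a j) = 0 := by
        refine Finset.prod_eq_zero (Finset.mem_univ j) ?_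
        rw [hj, zero_pow]
        have := hle a ha j
        omega
      rw [h1, zero_mul, mul_zero, mul_zero]
  · intro hP
    rw [aeval_def, eval₂_eq', Finset.mul_sum]
    refine Finset.sum_congr rfl fun a ha => ?_
    have h1 : (∏ q : Fin k × Fin (m + 1), (P q.1.succ q.2.succ / P q.1.succ 0) ^ a q) *
        ∏ j : Fin k, P j.succ 0 ^ dg a j =
        ∏ q : Fin k × Fin (m + 1), P q.1.succ q.2.succ ^ a q := by
      have h2 : ∏ j : Fin k, P j.succ 0 ^ dg a j =
          ∏ q : Fin k × Fin (m + 1), P q.1.succ 0 ^ a q := by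
        rw [Fintype.prod_prod_type]
        refine Finset.prod_congr rfl fun j _ => ?_
        exact (Finset.prod_pow_eq_pow_sum _ _ _).symm
      rw [h2, ← Finset.prod_mul_distrib]
      refine Finset.prod_congr rfl fun q _ => ?_
      rw [← mul_pow, div_mul_cancel₀ _ (hP _)]
    have h3 : (∏ j : Fin k, P j.succ 0 ^ (d - dg a j)) * ∏ j : Fin k, P j.succ 0 ^ dg a j =
        ∏ j : Fin k, P j.succ 0 ^ d := by
      rw [← Finset.prod_mul_distrib]
      refine Finset.prod_congr rfl fun j _ => ?_
      rw [← pow_add, Nat.sub_add_cancel (hle a ha j).le]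
    rw [Fin.prod_univ_succ, mul_pow, ← Finset.prod_pow, ← h3, ← h1]
    ring

/-- Two coprime polynomials: elimination and multihomogenisation in one statement are in `NoPair`. -/
theorem aeval_mh_one {K S : Type*} [Field K] [Field S] [Algebra K S] {k m d : ℕ}
    {F : MvPolynomial (Fin k × Fin (m + 1)) K}
    {H : MvPolynomial (Fin (k + 1) × Fin (m + 2)) K} (P : Fin (k + 1) → Fin (m + 2) → S)
    (hH : (∀ j, P j 0 ≠ 0) → aeval (fun q : Fin (k + 1) × Fin (m + 2) => P q.1 q.2) H =
      (∏ j, P j 0) ^ d * aeval (fun q : Fin k × Fin (m + 1) =>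
        P q.1.succ q.2.succ / P q.1.succ 0) F) (h0 : P 0 0 ≠ 0) (h1 : ∀ j : Fin k, P j.succ 0 = 1)
    (hz : aeval (fun q : Fin (k + 1) × Fin (m + 2) => P q.1 q.2) H = 0) :
    aeval (fun q : Fin k × Fin (m + 1) => P q.1.succ q.2.succ) F = 0 := by
  have h2 : ∀ j, P j 0 ≠ 0 := by
    intro j
    refine Fin.cases h0 (fun j => ?_) j
    rw [h1 j]
    exact one_ne_zero
  rw [hH h2] at hz
  have h3 := (mul_eq_zero.mp hz).resolve_left
    (pow_ne_zero _ (Finset.prod_ne_zero_iff.mpr fun j _ => h2 j))
  have h4 : (fun q : Fin k × Fin (m + 1) => P q.1.succ q.2.succ / P q.1.succ 0) =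
      fun q : Fin k × Fin (m + 1) => P q.1.succ q.2.succ := by
    funext q
    rw [h1, div_one]
  rwa [h4] at h3

end Pool.Agent.Helper66.HK
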