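import Pool.Agent.Helper66.HK.NoCommon

/-!
# Functions which vanish on a family of points which is stable under two involutions

`R = K[b]` (the coordinates of the other factors), `k` an algebraically closed field which contains
`R`, and `D` a pair of double coverings over `k` whose forms `G`, `G'` have coefficients in `R`.
The points `(x w, y w, b w)` are stable under the two involutions. A polynomial over `R` in the
affine coordinates of `x` which divides all polynomials which vanish at all points is a constant: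
`const_of_common`.
-/

namespace Pool.Agent.Helper66.HK

open MvPolynomial Pool.Agent.Helper47.NI

section homog

variable {R : Type} [CommRing R] {N : ℕ}

/-- Homogenization. -/
noncomputable def hz (F : MvPolynomial (Fin N) R) : MvPolynomial (Fin (N + 1)) R :=
  ∑ j ∈ Finset.range (F.totalDegree + 1),
    X 0 ^ (F.totalDegree - j) * rename Fin.succ (homogeneousComponent j F)

/-- Dehomogenization. -/
noncomputable def dh : MvPolynomial (Fin (N + 1)) R →ₐ[R] MvPolynomial (Fin N) R :=
  aeval (Fin.cons 1 X : Fin (N + 1) → MvPolynomial (Fin N) R)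

theorem hz_hom (F : MvPolynomial (Fin N) R) : (hz F).IsHomogeneous F.totalDegree := by
  refine IsHomogeneous.sum _ _ _ fun j hj => ?_
  have h1 : (X 0 ^ (F.totalDegree - j) : MvPolynomial (Fin (N + 1)) R).IsHomogeneous
      (F.totalDegree - j) := by
    have := (isHomogeneous_X R (0 : Fin (N + 1))).pow (F.totalDegree - j)
    rwa [one_mul] at this
  have h2 := (homogeneousComponent_isHomogeneous j F).rename_isHomogeneous (f := Fin.succ)
  have h3 := h1.mul h2
  rwa [Nat.sub_add_cancel (Nat.lt_succ_iff.mp (Finset.mem_range.mp hj))] at h3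

theorem dh_hz (F : MvPolynomial (Fin N) R) : dh (hz F) = F := by
  rw [hz, map_sum]
  have e : ∀ j, dh (X 0 ^ (F.totalDegree - j) * rename Fin.succ (homogeneousComponent j F)) =
      homogeneousComponent j F := by
    intro j
    rw [dh, map_mul, map_pow, aeval_X, aeval_rename]
    have e1 : (Fin.cons 1 X : Fin (N + 1) → MvPolynomial (Fin N) R) 0 = 1 := rfl
    have e2 : (Fin.cons 1 X : Fin (N + 1) → MvPolynomial (Fin N) R) ∘ Fin.succ = X := rfl
    rw [e1, e2, one_pow, one_mul, aeval_X_left_apply]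
  rw [Finset.sum_congr rfl fun j _ => e j, sum_homogeneousComponent]

theorem eval₂_scale {σ S : Type*} [CommRing S] (φ : R →+* S) {n : ℕ} {F : MvPolynomial σ R}
    (hF : F.IsHomogeneous n) (r : S) (v : σ → S) :
    eval₂ φ (fun a => r * v a) F = r ^ n * eval₂ φ v F := by
  rw [eval₂_eq, eval₂_eq, Finset.mul_sum]
  refine Finset.sum_congr rfl fun a ha => ?_
  have hn := hF.degree_eq_sum_deg_support ha
  simp only [mul_pow]
  rw [Finset.prod_mul_distrib, Finset.prod_pow_eq_pow_sum, ← hn]
  ring

/-- The value of a form at a point with nonzero first coordinate. -/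
theorem eval₂_dh {S : Type*} [Field S] (φ : R →+* S) {F : MvPolynomial (Fin (N + 1)) R} {d : ℕ}
    (hF : F.IsHomogeneous d) (v : Fin (N + 1) → S) (hv : v 0 ≠ 0) :
    eval₂ φ v F = v 0 ^ d * eval₂ φ (fun j => v j.succ / v 0) (dh F) := by
  have e1 : eval₂ φ (fun j : Fin N => v j.succ / v 0) (dh F) =
      eval₂ φ (Fin.cons 1 fun j => v j.succ / v 0) F := by
    let _ := φ.toAlgebra
    have e2 : ∀ (τ : Type) (z : τ → S) (p : MvPolynomial τ R), eval₂ φ z p = aeval z p :=
      fun _ _ _ => rfl
    rw [e2, e2, dh, comp_aeval_apply]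
    congr 2
    funext i
    refine Fin.cases ?_ (fun j => ?_) i
    · simp
    · simp
  rw [e1, ← eval₂_scale φ hF]
  congr 1
  funext i
  refine Fin.cases ?_ (fun j => ?_) i
  · simp
  · simp only [Fin.cons_succ]
    rw [mul_div_cancel₀ _ hv]

/-- Forms of the same degree with the same dehomogenization are equal. -/
theorem dh_inj {k : Type} [Field k] [Infinite k] {F G : MvPolynomial (Fin (N + 1)) k} {d : ℕ}
    (hF : F.IsHomogeneous d) (hG : G.IsHomogeneous d) (h : dh F = dh G) : F = G := by
  have h1 : X 0 * F = X 0 * G := by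
    refine MvPolynomial.funext fun v => ?_
    rw [map_mul, map_mul, eval_X]
    by_cases hv : v 0 = 0
    · rw [hv, zero_mul, zero_mul]
    · have e1 := eval₂_dh (RingHom.id k) hF v hv
      have e2 := eval₂_dh (RingHom.id k) hG v hv
      rw [h, ← e2] at e1
      rw [eval₂_id, eval₂_id] at e1
      rw [e1]
  exact mul_left_cancel₀ (X_ne_zero 0) h1

/-- If `f` divides the dehomogenization of a form then its homogenization divides the form. -/
theorem hz_dvd {k : Type} [Field k] [Infinite k] {f : MvPolynomial (Fin N) k}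
    {F : MvPolynomial (Fin (N + 1)) k} {d : ℕ} (hF : F.IsHomogeneous d) (h : f ∣ dh F) :
    hz f ∣ F := by
  by_cases hF0 : F = 0
  · rw [hF0]
    exact dvd_zero _
  obtain ⟨g, hg⟩ := h
  have hdh0 : dh F ≠ 0 := by
    intro h0
    refine hF0 (dh_inj hF (isHomogeneous_zero _ _ d) ?_)
    rw [h0, map_zero]
  have hf0 : f ≠ 0 := fun h0 => hdh0 (by rw [hg, h0, zero_mul])
  have hg0 : g ≠ 0 := fun h0 => hdh0 (by rw [hg, h0, mul_zero])
  have hle : f.totalDegree + g.totalDegree ≤ d := by
    have e1 := totalDegree_mul_of_isDomain hf0 hg0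
    rw [← e1, ← hg]
    by_contra hlt
    push Not at hlt
    -- the degree of the dehomogenization is at most `d`
    have h2 : (dh F).totalDegree ≤ d := by
      rw [dh, aeval_def, eval₂_eq]
      refine totalDegree_finsetSum_le fun a ha => ?_
      refine (totalDegree_mul _ _).trans ?_
      have h3 : (algebraMap k (MvPolynomial (Fin N) k) (coeff a F)).totalDegree = 0 :=
        totalDegree_C _
      rw [h3, zero_add]
      refine (totalDegree_finsetProd _ _).trans ?_
      have h4 := hF.degree_eq_sum_deg_support ha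
      rw [h4]
      refine Finset.sum_le_sum fun i _ => ?_
      refine (totalDegree_pow _ _).trans ?_
      refine Fin.cases ?_ (fun j => ?_) i
      · simp
      · simp
    omega
  have key : F = X 0 ^ (d - (f.totalDegree + g.totalDegree)) * (hz f * hz g) := by
    refine dh_inj hF ?_ ?_
    · have h1 : (X 0 ^ (d - (f.totalDegree + g.totalDegree)) :
          MvPolynomial (Fin (N + 1)) k).IsHomogeneous (d - (f.totalDegree + g.totalDegree)) := by
        have := (isHomogeneous_X k (0 : Fin (N + 1))).pow (d - (f.totalDegree + g.totalDegree))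
        rwa [one_mul] at this
      have h2 := h1.mul ((hz_hom f).mul (hz_hom g))
      rwa [Nat.sub_add_cancel hle] at h2
    · rw [map_mul, map_mul, map_pow, dh_hz, dh_hz, ← hg]
      have : dh (X 0 : MvPolynomial (Fin (N + 1)) k) = 1 := by
        rw [dh, aeval_X]
        rfl
      rw [this, one_pow, one_mul]
  rw [key]
  exact Dvd.intro (X 0 ^ (d - (f.totalDegree + g.totalDegree)) * hz g) (by ring)

end homog

section norm

variable {R : Type} [CommRing R] {n c : ℕ}

/-- The norms over `R`. -/
theorem exists_norm_R {r : R} (hr : 2 * r = 1) (P' : Fin n × Fin n → MvPolynomial (Fin n) R)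
    (hP' : ∀ p, (P' p).IsHomogeneous c) {d : ℕ} {u v : MvPolynomial (Fin n) R}
    (hu : u.IsHomogeneous d) (hv : v.IsHomogeneous d) :
    ∃ F : MvPolynomial (Fin n) R, F.IsHomogeneous (c * d) ∧
      ∀ (S : Type) [CommRing S] (φ : R →+* S) (x y y' : Fin n → S) (l : S),
        (∀ p, eval₂ φ x (P' p) = l * pr y y' p) →
        eval₂ φ x F = l ^ d * (eval₂ φ y u * eval₂ φ y' v + eval₂ φ y v * eval₂ φ y' u) := by
  obtain ⟨H, hH, hval⟩ := exists_sym r hr d u v hu hv
  refine ⟨aeval P' H, hH.aeval P' hP', fun S _ φ x y y' l hp => ?_⟩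
  let _ := φ.toAlgebra
  have e2 : ∀ (τ : Type) (z : τ → S) (p : MvPolynomial τ R), eval₂ φ z p = aeval z p :=
    fun _ _ _ => rfl
  have e3 : l ^ d * aeval (pr y y') H = aeval (fun a => l * pr y y' a) H :=
    (eval₂_scale φ hH l (pr y y')).symm
  rw [e2, e2, e2, e2, e2, ← hval S y y', e3, comp_aeval_apply]
  congr 2
  funext p
  exact hp p

end norm

section main

variable {K Ω k : Type} [Field K] [Field Ω] [Field k] [Algebra K Ω] {β W : Type} {n c : ℕ}

/-- Evaluation at a point. -/
noncomputable def ev (b : β → Ω) (x : Fin n → Ω) (F : MvPolynomial (Fin n) (MvPolynomial β K)) : Ω :=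
  eval₂ (aeval b : MvPolynomial β K →ₐ[K] Ω).toRingHom x F

/-- The forms over `R` which vanish at all points. -/
def AR (K : Type) [Field K] [Algebra K Ω] (b : W → β → Ω) (x : W → Fin n → Ω) (d : ℕ) :
    Set (MvPolynomial (Fin n) (MvPolynomial β K)) :=
  {F | F.IsHomogeneous d ∧ ∀ w, ev (b w) (x w) F = 0}

variable [Algebra (MvPolynomial β K) k]

/-- The linear combinations of the forms over `R` which vanish at all points. -/
def Ak (K k : Type) [Field K] [Algebra K Ω] [Field k] [Algebra (MvPolynomial β K) k]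
    (b : W → β → Ω) (x : W → Fin n → Ω) : Set (MvPolynomial (Fin n) k) :=
  {F | ∃ d, F ∈ Submodule.span k
    (MvPolynomial.map (algebraMap (MvPolynomial β K) k) '' AR K b x d)}

theorem hom_of_span {b : W → β → Ω} {x : W → Fin n → Ω} {d : ℕ} {F : MvPolynomial (Fin n) k}
    (hF : F ∈ Submodule.span k
      (MvPolynomial.map (algebraMap (MvPolynomial β K) k) '' AR K b x d)) : F.IsHomogeneous d := by
  have : Submodule.span k (MvPolynomial.map (algebraMap (MvPolynomial β K) k) '' AR K b x d) ≤
      homogeneousSubmodule (Fin n) k d := by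
    rw [Submodule.span_le]
    rintro _ ⟨G, hG, rfl⟩
    exact hG.1.map _
  exact this hF

theorem nst {D : Dbl k n c} (h2 : (2 : K) ≠ 0)
    (P' : Fin n × Fin n → MvPolynomial (Fin n) (MvPolynomial β K))
    (hP' : ∀ p, (P' p).IsHomogeneous c)
    (hDP : ∀ p, D.G' p = MvPolynomial.map (algebraMap (MvPolynomial β K) k) (P' p))
    {b : W → β → Ω} {x y : W → Fin n → Ω} (t : W → W) (hbt : ∀ w, b (t w) = b w)
    (hY : ∀ w, ∃ l : Ω, ∀ p, ev (b w) (x w) (P' p) = l * pr (y w) (y (t w)) p) :
    Nst D (Ak K k b x) (Ak K k b y) := by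
  classical
  have hr : (2 : MvPolynomial β K) * C ((2 : K)⁻¹) = 1 := by
    have : (2 : MvPolynomial β K) = C (2 : K) := by rw [map_ofNat]
    rw [this, ← C_mul, mul_inv_cancel₀ h2, C_1]
  set φ := algebraMap (MvPolynomial β K) k with hφ
  -- one vanishing form and a monomial
  have key : ∀ (d : ℕ) (u0 v0 : MvPolynomial (Fin n) (MvPolynomial β K)), u0 ∈ AR K b y d →
      v0.IsHomogeneous d → ∃ N ∈ AR K b x (c * d), ∀ z z1 z2 : Fin n → k,
        (∀ p, eval z (D.G' p) = pr z1 z2 p) → eval z (MvPolynomial.map φ N) =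
          eval z1 (MvPolynomial.map φ u0) * eval z2 (MvPolynomial.map φ v0) +
          eval z1 (MvPolynomial.map φ v0) * eval z2 (MvPolynomial.map φ u0) := by
    intro d u0 v0 hu0 hv0
    obtain ⟨F, hF, hval⟩ := exists_norm_R hr P' hP' hu0.1 hv0
    refine ⟨F, ⟨hF, fun w => ?_⟩, fun z z1 z2 hp => ?_⟩
    · obtain ⟨l, hl⟩ := hY w
      have h1 := hval Ω (aeval (b w) : MvPolynomial β K →ₐ[K] Ω).toRingHom (x w) (y w) (y (t w)) l hl
      have h3 : ev (b w) (y w) u0 = 0 := hu0.2 w
      have h4 : ev (b w) (y (t w)) u0 = 0 := by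
        have := hu0.2 (t w)
        rwa [hbt] at this
      rw [ev] at h3 h4 ⊢
      rw [h1, h3, h4]
      ring
    · have h1 := hval k φ z z1 z2 1 fun p => by
        rw [one_mul, ← hp p, hDP, eval_map]
      rw [eval_map, eval_map, eval_map, eval_map, eval_map, h1, one_pow, one_mul]
  intro d u v hu hud hvd
  obtain ⟨d', hu'⟩ := hu
  by_cases hu0 : u = 0
  · refine ⟨0, ⟨0, Submodule.zero_mem _⟩, fun z z1 z2 _ => ?_⟩
    rw [hu0]
    simp
  have hdd : d' = d := (hom_of_span hu').inj_right hud hu0
  subst hdd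
  suffices hs : ∃ N ∈ Submodule.span k (MvPolynomial.map φ '' AR K b x (c * d')),
      ∀ z z1 z2 : Fin n → k, (∀ p, eval z (D.G' p) = pr z1 z2 p) →
        eval z N = eval z1 u * eval z2 v + eval z1 v * eval z2 u by
    obtain ⟨N, hN, hv⟩ := hs
    exact ⟨N, ⟨_, hN⟩, hv⟩
  clear hud hu0
  induction hu' using Submodule.span_induction with
  | mem u hu =>
    obtain ⟨u0, hu0, rfl⟩ := hu
    have hm : ∀ m ∈ v.support, (monomial m (1 : MvPolynomial β K)).IsHomogeneous d' := by
      intro m hm
      refine isHomogeneous_monomial _ ?_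
      by_contra h
      exact mem_support_iff.1 hm (hvd.coeff_eq_zero h)
    have hk : ∀ m ∈ v.support, ∃ N ∈ AR K b x (c * d'), ∀ z z1 z2 : Fin n → k,
        (∀ p, eval z (D.G' p) = pr z1 z2 p) → eval z (MvPolynomial.map φ N) =
          eval z1 (MvPolynomial.map φ u0) *
            eval z2 (MvPolynomial.map φ (monomial m (1 : MvPolynomial β K))) +
          eval z1 (MvPolynomial.map φ (monomial m (1 : MvPolynomial β K))) *
            eval z2 (MvPolynomial.map φ u0) := fun m hm' => key d' u0 _ hu0 (hm m hm')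
    choose! N hN hval using hk
    refine ⟨∑ m ∈ v.support, coeff m v • MvPolynomial.map φ (N m), ?_, fun z z1 z2 hp => ?_⟩
    · refine Submodule.sum_mem _ fun m hm' => Submodule.smul_mem _ _ (Submodule.subset_span ?_)
      exact ⟨N m, hN m hm', rfl⟩
    · have e : ∀ z : Fin n → k, eval z v = ∑ m ∈ v.support,
          coeff m v * eval z (MvPolynomial.map φ (monomial m (1 : MvPolynomial β K))) := by
        intro z
        conv_lhs => rw [v.as_sum, map_sum]
        refine Finset.sum_congr rfl fun m _ => ?_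
        rw [map_monomial, map_one, eval_monomial, eval_monomial, one_mul]
      rw [map_sum, e z1, e z2, Finset.mul_sum, Finset.sum_mul, ← Finset.sum_add_distrib]
      refine Finset.sum_congr rfl fun m hm' => ?_
      rw [smul_eval, hval m hm' z z1 z2 hp]
      ring
  | zero => exact ⟨0, Submodule.zero_mem _, fun z z1 z2 _ => by simp⟩
  | add u1 u2 _ _ ih1 ih2 =>
    obtain ⟨N1, hN1, hv1⟩ := ih1
    obtain ⟨N2, hN2, hv2⟩ := ih2
    refine ⟨N1 + N2, Submodule.add_mem _ hN1 hN2, fun z z1 z2 hp => ?_⟩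
    rw [map_add, map_add, map_add, hv1 z z1 z2 hp, hv2 z z1 z2 hp]
    ring
  | smul a u1 _ ih1 =>
    obtain ⟨N1, hN1, hv1⟩ := ih1
    refine ⟨a • N1, Submodule.smul_mem _ _ hN1, fun z z1 z2 hp => ?_⟩
    rw [smul_eval, smul_eval, smul_eval, hv1 z z1 z2 hp]
    ring

/-- A polynomial in the affine coordinates of `x` over `R` which divides all polynomials which
vanish at all points is a constant. -/
theorem const_of_common [IsAlgClosed k] {N : ℕ} {D : Dbl k (N + 1) c} (h2 : (2 : K) ≠ 0)
    (h2' : (2 : k) ≠ 0) (hN : 1 ≤ N) (hc : 4 ≤ c) (hd : D.Dense) (hd' : D.swap.Dense)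
    (hinj : Function.Injective (algebraMap (MvPolynomial β K) k))
    (P P' : Fin (N + 1) × Fin (N + 1) → MvPolynomial (Fin (N + 1)) (MvPolynomial β K))
    (hP : ∀ p, (P p).IsHomogeneous c) (hP' : ∀ p, (P' p).IsHomogeneous c)
    (hDP : ∀ p, D.G p = MvPolynomial.map (algebraMap (MvPolynomial β K) k) (P p))
    (hDP' : ∀ p, D.G' p = MvPolynomial.map (algebraMap (MvPolynomial β K) k) (P' p))
    {b : W → β → Ω} {x y : W → Fin (N + 1) → Ω} (hx0 : ∀ w, x w 0 ≠ 0) (s t : W → W)
    (hbs : ∀ w, b (s w) = b w) (hbt : ∀ w, b (t w) = b w)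
    (hX : ∀ w, ∃ l : Ω, ∀ p, ev (b w) (y w) (P p) = l * pr (x w) (x (s w)) p)
    (hY : ∀ w, ∃ l : Ω, ∀ p, ev (b w) (x w) (P' p) = l * pr (y w) (y (t w)) p)
    {F0 : MvPolynomial (Fin N) (MvPolynomial β K)} (hF0 : F0 ≠ 0)
    (hF0v : ∀ w, ev (b w) (fun i => x w i.succ / x w 0) F0 = 0)
    {f : MvPolynomial (Fin N) (MvPolynomial β K)}
    (hf : ∀ F : MvPolynomial (Fin N) (MvPolynomial β K),
      (∀ w, ev (b w) (fun i => x w i.succ / x w 0) F = 0) → f ∣ F) :
    ∃ r : MvPolynomial β K, f = C r := by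
  have : Infinite k := IsAlgClosed.instInfinite
  set φ := algebraMap (MvPolynomial β K) k with hφ
  have hmapinj : ∀ τ : Type, Function.Injective
      (MvPolynomial.map φ : MvPolynomial τ (MvPolynomial β K) → MvPolynomial τ k) :=
    fun τ => MvPolynomial.map_injective φ hinj
  have hdhmap : ∀ F : MvPolynomial (Fin (N + 1)) (MvPolynomial β K),
      dh (MvPolynomial.map φ F) = MvPolynomial.map φ (dh F) := by
    intro F
    induction F using MvPolynomial.induction_on with
    | C a => simp [dh, algHom_C]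
    | add p q hp hq => rw [map_add, map_add, map_add, map_add, hp, hq]
    | mul_X p i hp =>
      rw [map_mul, map_mul, map_mul, map_mul, hp, map_X]
      congr 1
      rw [dh, dh, aeval_X, aeval_X]
      refine Fin.cases ?_ (fun j => ?_) i
      · simp
      · simp
  have hu : IsUnit (hz (MvPolynomial.map φ f)) := by
    refine no_common (D := D) h2' (by omega) hc hd hd' (A := Ak K k b x) (B := Ak K k b y) ?_ ?_
      (nst h2 P' hP' hDP' t hbt hY) (nst (D := D.swap) h2 P hP hDP s hbs hX)
      (F := MvPolynomial.map φ (hz F0)) ?_ ?_ ?_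
    · rintro F ⟨d, hF⟩
      exact ⟨d, hom_of_span hF⟩
    · rintro F ⟨d, hF⟩
      exact ⟨d, hom_of_span hF⟩
    · refine ⟨F0.totalDegree, Submodule.subset_span ⟨hz F0, ⟨hz_hom F0, fun w => ?_⟩, rfl⟩⟩
      rw [ev, eval₂_dh _ (hz_hom F0) _ (hx0 w), dh_hz]
      have := hF0v w
      rw [ev] at this
      rw [this, mul_zero]
    · intro h0
      have h1 : hz F0 = 0 := hmapinj _ (by rw [h0, map_zero])
      exact hF0 (by rw [← dh_hz F0, h1, map_zero])
    · rintro F ⟨d, hF⟩
      induction hF using Submodule.span_induction with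
      | mem F hF =>
        obtain ⟨F1, hF1, rfl⟩ := hF
        refine hz_dvd (hF1.1.map _) ?_
        rw [hdhmap]
        refine map_dvd _ (hf _ fun w => ?_)
        have h1 := hF1.2 w
        rw [ev, eval₂_dh _ hF1.1 _ (hx0 w)] at h1
        exact (mul_eq_zero.mp h1).resolve_left (pow_ne_zero _ (hx0 w))
      | zero => exact dvd_zero _
      | add F G _ _ h1 h2 => exact dvd_add h1 h2
      | smul a F _ h1 => exact dvd_smul_of_dvd a h1
  -- a unit is a constant
  obtain ⟨r, -, hr⟩ : ∃ r : k, IsUnit r ∧ hz (MvPolynomial.map φ f) = C r := by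
    rw [MvPolynomial.isUnit_iff_eq_C_of_isReduced] at hu
    obtain ⟨r, hr, e⟩ := hu
    exact ⟨r, hr, e⟩
  have h3 : MvPolynomial.map φ f = C r := by
    rw [← dh_hz (MvPolynomial.map φ f), hr, ← algebraMap_eq, AlgHom.commutes]
    rfl
  refine ⟨coeff 0 f, MvPolynomial.ext _ _ fun m => ?_⟩
  by_cases hm : m = 0
  · rw [hm, coeff_C, if_pos rfl]
  · rw [coeff_C, if_neg (Ne.symm hm)]
    refine hinj ?_
    rw [← coeff_map, h3, coeff_C, if_neg (Ne.symm hm), map_zero]

end main

end Pool.Agent.Helper66.HK
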