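import Pool.Agent.Helper47.NI.Main

/-!
# Two double coverings: sets of forms which are stable under the norms have no common divisor

`A`, `B` are sets of forms in `x`, `y`, such that the norms `u(y) v(y') + v(y) u(y')`, `u ∈ B`, `v`
any form of the same degree, are in `A`, and conversely. If `A` has a nonzero element then the
greatest common divisor of `A` is constant: `no_common`.
-/

namespace Pool.Agent.Helper66.HK

open MvPolynomial Pool.Agent.Helper47.NI

universe u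

/-- The greatest common divisor of a set. -/
theorem exists_gcd_set {R : Type*} [CommRing R] [IsDomain R] [UniqueFactorizationMonoid R]
    (A : Set R) {a : R} (ha : a ∈ A) (ha0 : a ≠ 0) :
    ∃ h, h ≠ 0 ∧ (∀ F ∈ A, h ∣ F) ∧ ∀ d, (∀ F ∈ A, d ∣ F) → d ∣ h := by
  classical
  let _ : GCDMonoid R := UniqueFactorizationMonoid.toGCDMonoid R
  have wf : WellFounded (DvdNotUnit : R → R → Prop) := IsWellFounded.wf
  have hne : {r : R | ∃ h, (∀ F ∈ A, h ∣ F) ∧ a = h * r}.Nonempty :=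
    ⟨a, 1, fun F _ => one_dvd F, (one_mul a).symm⟩
  obtain ⟨r, ⟨h, hA, hr⟩, hmin⟩ := wf.has_min _ hne
  have hh0 : h ≠ 0 := fun h0 => ha0 (by rw [hr, h0, zero_mul])
  have hr0 : r ≠ 0 := fun h0 => ha0 (by rw [hr, h0, mul_zero])
  refine ⟨h, hh0, hA, fun d hd => ?_⟩
  obtain ⟨e, he⟩ := dvd_lcm_left h d
  have hl : ∀ F ∈ A, lcm h d ∣ F := fun F hF => lcm_dvd (hA F hF) (hd F hF)
  obtain ⟨r', hr'⟩ := hl a ha
  have h1 : r = e * r' := by
    apply mul_left_cancel₀ hh0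
    rw [← hr, hr', he, mul_assoc]
  have hr'0 : r' ≠ 0 := fun h0 => hr0 (by rw [h1, h0, mul_zero])
  have hu : IsUnit e := by
    by_contra hu
    exact hmin r' ⟨lcm h d, hl, hr'⟩ ⟨hr'0, e, hu, by rw [h1, mul_comm]⟩
  have h2 : lcm h d ∣ h := by
    rw [he]
    exact (IsUnit.mul_right_dvd hu).mpr dvd_rfl
  exact (dvd_lcm_right h d).trans h2

variable {k : Type u} [Field k] {n c : ℕ}

theorem hom_zero {F : MvPolynomial (Fin n) k} (hF : F.IsHomogeneous 0) (h0 : F ≠ 0) : IsUnit F := by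
  have h1 : F.totalDegree = 0 := hF.totalDegree h0
  have h2 := totalDegree_eq_zero_iff_eq_C.mp h1
  rw [h2]
  refine (isUnit_iff_ne_zero.mpr fun h => h0 ?_).map C
  rw [h2, h, C_0]

/-- The radical of a form. -/
theorem exists_sqfree [Infinite k] {h : MvPolynomial (Fin n) k} {d : ℕ} (hh : h.IsHomogeneous d)
    (h0 : h ≠ 0) : ∃ (f : MvPolynomial (Fin n) k) (e : ℕ), f.IsHomogeneous e ∧
      (0 < d → 0 < e) ∧ Squarefree f ∧ ∀ z, eval z f = 0 ↔ eval z h = 0 := by
  classical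
  have hex : ∃ e : ℕ, ∃ f : MvPolynomial (Fin n) k, f ≠ 0 ∧ f.IsHomogeneous e ∧
      ∀ z, eval z f = 0 ↔ eval z h = 0 := ⟨d, h, h0, hh, fun z => Iff.rfl⟩
  obtain ⟨f, hf0, hf, hz⟩ := Nat.find_spec hex
  have hmin : ∀ (F : MvPolynomial (Fin n) k) (e : ℕ), F ≠ 0 → F.IsHomogeneous e →
      (∀ z, eval z F = 0 ↔ eval z h = 0) → Nat.find hex ≤ e := fun F e h1 h2 h3 =>
    Nat.find_min' hex ⟨F, h1, h2, h3⟩
  refine ⟨f, Nat.find hex, hf, fun hd => ?_, ?_, hz⟩
  · rcases Nat.eq_zero_or_pos (Nat.find hex) with h1 | h1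
    · exfalso
      rw [h1] at hf
      have h2 : IsUnit (eval (0 : Fin n → k) f) := (hom_zero hf hf0).map (eval 0)
      refine h2.ne_zero ((hz 0).mpr ?_)
      have h3 := eval_smul_of_hom hh 0 (0 : Fin n → k)
      rw [zero_smul, zero_pow hd.ne', zero_mul] at h3
      exact h3
    · exact h1
  · rintro v ⟨w, hw⟩
    have hw' : f = v * (v * w) := by rw [hw, mul_assoc]
    have h1 := hf
    rw [hw'] at h1
    have hf1 : v * (v * w) ≠ 0 := by rw [← hw']; exact hf0
    obtain ⟨a, b, ha, hb, hab⟩ := hom_factor h1 hf1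
    have h4 := hmin _ _ (right_ne_zero_of_mul hf1) hb fun z => by
      rw [← hz z, hw', map_mul, map_mul, map_mul]
      constructor
      · intro h
        rw [h, mul_zero]
      · intro h
        rcases mul_eq_zero.mp h with h | h
        · rw [h, zero_mul]
        · exact h
    have h5 : a = 0 := by omega
    rw [h5] at ha
    exact hom_zero ha (left_ne_zero_of_mul hf1)

variable {D : Dbl k n c}

/-- If all norms of `u` vanish at `x` then `u` vanishes at the points over `x`. -/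
theorem eval_zero_of_norms (h2 : (2 : k) ≠ 0) {y y' : Fin n → k} (hy' : y' ≠ 0) {d : ℕ}
    {u : MvPolynomial (Fin n) k} (hu : u.IsHomogeneous d)
    (h : ∀ v : MvPolynomial (Fin n) k, v.IsHomogeneous d →
      eval y u * eval y' v + eval y v * eval y' u = 0) : eval y u = 0 := by
  have h1 := h u hu
  have h3 : eval y u * eval y' u = 0 := by
    have : (2 : k) * (eval y u * eval y' u) = 0 := by linear_combination h1
    exact (mul_eq_zero.mp this).resolve_left h2
  rcases mul_eq_zero.mp h3 with h4 | h4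
  · exact h4
  obtain ⟨j, hj⟩ := Function.ne_iff.mp hy'
  have hv : (MvPolynomial.X j ^ d : MvPolynomial (Fin n) k).IsHomogeneous d := by
    have := (isHomogeneous_X k j).pow d
    rwa [one_mul] at this
  have h5 := h _ hv
  rw [h4, mul_zero, add_zero, map_pow, eval_X] at h5
  exact (mul_eq_zero.mp h5).resolve_right (pow_ne_zero _ hj)

/-- The norms of the elements of `B` are in `A`. -/
def Nst (D : Dbl k n c) (A B : Set (MvPolynomial (Fin n) k)) : Prop :=
  ∀ (d : ℕ) (u v : MvPolynomial (Fin n) k), u ∈ B → u.IsHomogeneous d → v.IsHomogeneous d →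
    ∃ N ∈ A, ∀ x y y' : Fin n → k, (∀ p, eval x (D.G' p) = pr y y' p) →
      eval x N = eval y u * eval y' v + eval y v * eval y' u

/-- A common divisor of `A` vanishes at `x`: all elements of `B` vanish at the points over `x`. -/
theorem zero_of_common (h2 : (2 : k) ≠ 0) {A B : Set (MvPolynomial (Fin n) k)} (hN : Nst D A B)
    {h : MvPolynomial (Fin n) k} (hA : ∀ F ∈ A, h ∣ F) {x y : Fin n → k} (hxy : (x, y) ∈ D.S)
    (hG : ∃ p, eval x (D.G' p) ≠ 0) (hx : eval x h = 0) {d : ℕ} {u : MvPolynomial (Fin n) k}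
    (hu : u ∈ B) (hud : u.IsHomogeneous d) : eval y u = 0 := by
  obtain ⟨y', hy', e⟩ := D.sy hxy hG
  refine eval_zero_of_norms h2 (D.ne2 hy') hud fun v hv => ?_
  obtain ⟨N, hNA, hNe⟩ := hN d u v hu hud hv
  rw [← hNe x y y' e]
  obtain ⟨q, hq⟩ := hA N hNA
  rw [hq, map_mul, hx, zero_mul]

/-- `B` has a nonzero element if `A` has one. -/
theorem exists_ne [IsAlgClosed k] (h2 : (2 : k) ≠ 0) (hn : 2 ≤ n) (hd' : D.swap.Dense)
    {A B : Set (MvPolynomial (Fin n) k)} (hN : Nst D.swap B A) {F : MvPolynomial (Fin n) k}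
    (hF : F ∈ A) (hF0 : F ≠ 0) {d : ℕ} (hFd : F.IsHomogeneous d) : ∃ u ∈ B, u ≠ 0 := by
  by_contra hc
  push Not at hc
  refine hF0 (dense0 hn D.swap hd' fun x hx hgood => ?_)
  obtain ⟨y, hy⟩ := D.ex' hx hgood.1
  obtain ⟨x', hx', e⟩ := D.sx hy (hgood.2 y hy)
  refine eval_zero_of_norms h2 (D.ne1 hx') hFd fun v hv => ?_
  obtain ⟨N, hNB, hNe⟩ := hN d F v hF hFd hv
  rw [← hNe y x x' e, hc N hNB, map_zero]

/-- One half of the compatibility of the greatest common divisors. -/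
theorem half [IsAlgClosed k] (h2 : (2 : k) ≠ 0) (hn : 2 ≤ n) (hd : D.Dense)
    {A B : Set (MvPolynomial (Fin n) k)} (hB : ∀ F ∈ B, ∃ d, F.IsHomogeneous d)
    (hN : Nst D A B) {u : MvPolynomial (Fin n) k} (hu : u ∈ B) (hu0 : u ≠ 0)
    {h q : MvPolynomial (Fin n) k} {d : ℕ} (hh : h.IsHomogeneous d) (hA : ∀ F ∈ A, h ∣ F)
    (hq : ∀ e, (∀ F ∈ B, e ∣ F) → e ∣ q) {x y : Fin n → k} (hxy : (x, y) ∈ D.S)
    (hG : ∃ p, eval y (D.G p) ≠ 0) (hx : eval x h = 0) : eval y q = 0 := by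
  obtain ⟨M, -, hM⟩ := D.exists_norm h2 hh hh
  -- at good points over which the norm vanishes all elements of `B` vanish
  have key : ∀ y : Fin n → k, y ≠ 0 → D.Good y → eval y M = 0 → ∀ v ∈ B, eval y v = 0 := by
    intro y hy hgood hz v hv
    obtain ⟨e, he⟩ := hB v hv
    obtain ⟨x, hx⟩ := D.ex hy hgood.1
    obtain ⟨x', hx', hp⟩ := D.sx hx hgood.1
    have h3 := hM x x' y hp
    rw [hz, ← two_mul] at h3
    rcases mul_eq_zero.1 ((mul_eq_zero.1 h3.symm).resolve_left h2) with h4 | h4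
    · exact zero_of_common h2 hN hA hx (hgood.2 x hx) h4 hv he
    · exact zero_of_common h2 hN hA hx' (hgood.2 x' hx') h4 hv he
  have hM0 : M ≠ 0 := by
    rintro rfl
    exact hu0 (dense0 hn D hd fun y hy hgood => key y hy hgood (map_zero _) u hu)
  obtain ⟨x', hx', hp⟩ := D.sx hxy hG
  have hMy : eval y M = 0 := by
    rw [hM x x' y hp, hx]
    ring
  obtain ⟨w, hw, hwM, hwy⟩ := exists_irreducible_eval hM0 hMy
  have h5 : w ∣ q := by
    refine hq w fun v hv => hd w hw v fun y hy hgood hz => key y hy hgood ?_ v hv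
    obtain ⟨r, hr⟩ := hwM
    rw [hr, map_mul, hz, zero_mul]
  obtain ⟨r, hr⟩ := h5
  rw [hr, map_mul, hwy, zero_mul]

/-- Two sets of forms which are stable under the norms: a common divisor of `A` is constant. -/
theorem no_common [IsAlgClosed k] (h2 : (2 : k) ≠ 0) (hn : 2 ≤ n) (hc : 4 ≤ c) (hd : D.Dense)
    (hd' : D.swap.Dense) {A B : Set (MvPolynomial (Fin n) k)}
    (hA : ∀ F ∈ A, ∃ d, F.IsHomogeneous d) (hB : ∀ F ∈ B, ∃ d, F.IsHomogeneous d)
    (hN : Nst D A B) (hN' : Nst D.swap B A) {F : MvPolynomial (Fin n) k} (hF : F ∈ A)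
    (hF0 : F ≠ 0) {f : MvPolynomial (Fin n) k} (hf : ∀ F ∈ A, f ∣ F) : IsUnit f := by
  have : Infinite k := IsAlgClosed.instInfinite
  obtain ⟨d, hFd⟩ := hA F hF
  obtain ⟨u, hu, hu0⟩ := exists_ne h2 hn hd' hN' hF hF0 hFd
  obtain ⟨e, hue⟩ := hB u hu
  obtain ⟨h, hh0, hhA, hhg⟩ := exists_gcd_set A hF hF0
  obtain ⟨q, hq0, hqB, hqg⟩ := exists_gcd_set B hu hu0
  have hhom : ∀ {a b : MvPolynomial (Fin n) k} {d : ℕ}, b.IsHomogeneous d → b ≠ 0 → a ∣ b →
      ∃ e, a.IsHomogeneous e := by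
    intro a b d hb hb0 hab
    obtain ⟨r, rfl⟩ := hab
    obtain ⟨i, -, hi, -⟩ := hom_factor hb hb0
    exact ⟨i, hi⟩
  obtain ⟨d1, hd1⟩ := hhom hFd hF0 (hhA F hF)
  obtain ⟨d2, hd2⟩ := hhom hue hu0 (hqB u hu)
  have hcom : D.Compat h q := by
    intro x y hxy hGy hGx
    constructor
    · exact fun h0 => half h2 hn hd hB hN hu hu0 hd1 hhA hqg hxy hGy h0
    · exact fun h0 => half (D := D.swap) h2 hn hd' hA hN' hF hF0 hd2 hqB hhg
        (show (y, x) ∈ D.swap.S from hxy) hGx h0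
  obtain ⟨h1, a, ha, hapos, hsq1, hz1⟩ := exists_sqfree hd1 hh0
  obtain ⟨q1, b, hb, -, hsq2, hz2⟩ := exists_sqfree hd2 hq0
  have hd10 : d1 = 0 := by
    by_contra hne
    refine no_compat h2 hn hc D hd hd' ha hb hsq1 hsq2 (hapos (Nat.pos_of_ne_zero hne)) ?_
    intro x y hxy hGy hGx
    rw [hz1, hz2]
    exact hcom x y hxy hGy hGx
  rw [hd10] at hd1
  exact isUnit_of_dvd_unit (hhg f hf) (hom_zero hd1 hh0)

end Pool.Agent.Helper66.HK
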