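import Pool.Agent.Helper66.HK.Zaff
import Pool.Agent.Helper69.HM.FinX

/-!
# Project HK: two coprime polynomials do not vanish together at all rational points
-/

set_option autoImplicit false

namespace Pool.Agent.Helper66.HK

open MvPolynomial Pool.Agent.Helper64.HK Pool.Agent.Helper24.HK Pool.Agent.Helper24.HM
open Pool.Agent.Helper28.HN (I aff)

variable {k m : ℕ} {a : Fin (k + 1) → Fin (m + 1)}

theorem Mf_map {S T : Type*} [CommRing S] [CommRing T] (φ : S →+* T) (c : Ix a → S)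
    (i : Fin (m + 1)) (U V : Fin (k + 1) → I m → S) :
    Mf (fun e => φ (c e)) i (fun j l => φ (U j l)) (fun j l => φ (V j l)) = φ (Mf c i U V) := by
  simp only [Mf, map_sum, map_mul, map_prod]

theorem onX_of_map {S T : Type*} [CommRing S] [CommRing T] (φ : S →+* T)
    (hφ : Function.Injective φ) {c : Ix a → S} {X : Fin (k + 1) → I m → S}
    (h : OnX (fun e => φ (c e)) fun j l => φ (X j l)) : OnX c X := by
  intro i
  have h1 := h i
  rw [Ef, Mf_map] at h1
  exact hφ (by rw [map_zero]; exact h1)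

/-- The result of the dynamics, from the pieces. -/
theorem nopair_p_of {p : ℕ} [Fact p.Prime] (c : Ix a → ℤ_[p]) (s : Sel k m) (x : Un k m → ℤ_[p])
    (K : Subfield ℚ_[p]) (cK : Ix a → K) (hc : ∀ e, ((cK e : K) : ℚ_[p]) = (c e : ℚ_[p]))
    (L : LocM p (k * (m + 1)) (Fin k)) (hL : IsLoc c L) (R : RefM L (Lt k m)) (hR : IsRef s x R)
    (M : MemsM L R) (hM : ∀ N x z, M.Mem' N x z →
        cq (Xz c (ct (tr x)) z) ∈ Zc (K : Set ℚ_[p]) fun e => (c e : ℚ_[p]))
    {i0 : Lt k m} {k1 N1 : ℕ} {x0 : ℤ_[p] → Pool.Agent.Helper24.HN.V p (k * (m + 1))}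
    (hst : StM M i0 (some s.j) k1 N1 x0)
    (hdet : ∀ v : Fin k × Fin (m + 1) → ℤ_[p],
      (∀ q, ‖v q - x (.inl q)‖ ≤ (p : ℝ) ^ (-2 : ℤ)) → IsUnit (Mx c (ct v)).det)
    (hspan : ∀ v : Fin k × Fin (m + 1) → ℤ_[p],
      (∀ q, ‖v q - x (.inl q)‖ ≤ (p : ℝ) ^ (-2 : ℤ)) → ∀ ζ : Fin k × Fin (m + 1) → ℤ_[p],
      (∀ q, ‖ζ q - x (.inr (some q))‖ ≤ (p : ℝ) ^ (-2 : ℤ)) →
      Submodule.span ℚ_[p] (Set.range fun q : Fin k × Fin (m + 1) =>
        (Pool.Agent.Helper24.HN.cst (em q.1 (vh c q.1.succ (Xz c (ct v) (ζ q)))) :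
          Fin (k * (m + 1)) → ℚ_[p])) = ⊤) :
    NoPair cK := by
  intro F1 F2 h12
  by_contra hcon
  push Not at hcon
  -- the ball
  have hball : ∀ X : Pool.Agent.Helper24.HN.V p (k * (m + 1)),
      ‖X - R.u0‖ ≤ (p : ℝ) ^ (-2 : ℤ) → ∀ q, ‖tr X q - x (.inl q)‖ ≤ (p : ℝ) ^ (-2 : ℤ) := by
    intro X hX q
    have h1 := (norm_le_pi_norm (X - R.u0) (finProdFinEquiv q)).trans hX
    rw [Pi.sub_apply, hR.u0] at h1
    simpa [tr, tr'] using h1
  have hsp : ∀ (x1 : Pool.Agent.Helper24.HN.V p (k * (m + 1))) (ζ : Lt k m → ℤ_[p]),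
      ‖x1 - R.u0‖ ≤ (p : ℝ) ^ (-2 : ℤ) →
      (∀ b, b ≠ R.y → ‖ζ b - R.z b‖ ≤ (p : ℝ) ^ (-2 : ℤ)) →
      ⊤ ≤ Submodule.span ℚ_[p] ((lin L R.ty x1 ζ).v '' {b | b ≠ R.y}) := by
    intro x1 ζ h1 h2
    rw [← hspan (tr x1) (hball x1 h1) (fun q => ζ (some q)) fun q => ?_]
    · refine Submodule.span_mono ?_
      rintro _ ⟨q, rfl⟩
      refine ⟨some q, ?_, ?_⟩
      · rw [hR.y]
        simp
      · show Pool.Agent.Helper24.HN.cst (L.xi (R.ty (some q)) x1 (ζ (some q))) = _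
        rw [hL.hxi, hR.ty]
        rfl
    · have h3 := h2 (some q) (by rw [hR.y]; simp)
      rw [hR.z] at h3
      exact h3
  -- polynomials in one vector
  have hrel : IsRelPrime (rename (finProdFinEquiv (m := k) (n := m + 1)) F1)
      (rename (finProdFinEquiv (m := k) (n := m + 1)) F2) := by
    intro d hd1 hd2
    set e := renameEquiv K (finProdFinEquiv (m := k) (n := m + 1)) with he
    have h1 : e.symm d ∣ F1 := by
      have := map_dvd e.symm hd1
      rwa [show rename (finProdFinEquiv (m := k) (n := m + 1)) F1 = e F1 from rfl,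
        AlgEquiv.symm_apply_apply] at this
    have h2 : e.symm d ∣ F2 := by
      have := map_dvd e.symm hd2
      rwa [show rename (finProdFinEquiv (m := k) (n := m + 1)) F2 = e F2 from rfl,
        AlgEquiv.symm_apply_apply] at this
    have h3 := (h12 h1 h2).map e
    rwa [AlgEquiv.apply_symm_apply] at h3
  obtain ⟨N, X, u, hX, hmem, hne⟩ := Pool.Agent.Helper69.HM.nopair M
    (by rw [hR.j]; exact hst) hsp _ _ hrel
  have hz := hM N X u hmem
  set P : Fin (k + 1) → I m → ℚ_[p] := cq (Xz c (ct (tr X)) u) with hP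
  have hP0 : P 0 0 ≠ 0 := by
    have h1 : Xz c (ct (tr X)) u 0 0 = (Mx c (ct (tr X))).det := by
      simp [Xz, yh, Y0, Y1]
    have h2 := hdet (tr X) (hball X hX)
    rw [hP, cq, h1]
    intro h0
    rw [PadicInt.coe_eq_zero] at h0
    rw [h0] at h2
    exact not_isUnit_zero h2
  have hPs : ∀ (j : Fin k) (i : I m), P j.succ i = ((ct (tr X) j.succ i : ℤ_[p]) : ℚ_[p]) := by
    intro j i
    rw [hP, cq, Xz, Function.update_of_ne (Fin.succ_ne_zero j)]
  have hP1 : ∀ j : Fin k, P j.succ 0 = 1 := by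
    intro j
    rw [hPs]
    simp [ct, aff]
  have hPq : (fun q : Fin k × Fin (m + 1) => P q.1.succ q.2.succ) =
      fun q => Pool.Agent.Helper24.HN.cst X (finProdFinEquiv q) := by
    funext q
    rw [hPs]
    simp [ct, aff, tr, Pool.Agent.Helper24.HN.cst]
  have key : ∀ F : MvPolynomial (Fin k × Fin (m + 1)) K,
      (∀ Q : Fin (k + 1) → I m → K, OnX cK Q → (∀ j, Q j 0 = 1) →
        eval (fun q => Q q.1.succ q.2.succ) F = 0) →
      aeval (Pool.Agent.Helper24.HN.cst X) (rename finProdFinEquiv F) = 0 := by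
    intro F hF
    have h1 := z_aff K (fun e => (c e : ℚ_[p])) (MvPolynomial.map (algebraMap K ℚ_[p]) F) ?_ hz hP0 hP1
    · rw [hPq, eval_map] at h1
      rw [aeval_rename, aeval_def]
      exact h1
    · intro Q hQ hQ1
      set Q' : Fin (k + 1) → I m → K := fun j i => ⟨Q j i, hQ.1 j i⟩ with hQ'
      have h2 := hF Q' ?_ fun j => Subtype.ext (hQ1 j)
      · rw [eval_map]
        have h3 : (fun q : Fin k × Fin (m + 1) => Q q.1.succ q.2.succ) =
            fun q => algebraMap K ℚ_[p] (Q' q.1.succ q.2.succ) := rfl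
        have h4 := eval₂_comp_left (algebraMap K ℚ_[p]) (RingHom.id K)
          (fun q : Fin k × Fin (m + 1) => Q' q.1.succ q.2.succ) F
        rw [eval₂_id, h2, map_zero, RingHom.comp_id] at h4
        rw [h3]
        exact h4.symm
      · refine onX_of_map (algebraMap K ℚ_[p]) (algebraMap K ℚ_[p]).injective ?_
        have h4 : (fun e => algebraMap K ℚ_[p] (cK e)) = fun e => (c e : ℚ_[p]) := by
          funext e
          exact hc e
        rw [h4]
        exact hQ.2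
  rcases hne with hne | hne
  · exact hne (key F1 fun Q hQ hQ1 => (hcon Q hQ hQ1).1)
  · exact hne (key F2 fun Q hQ hQ1 => (hcon Q hQ hQ1).2)

end Pool.Agent.Helper66.HK
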