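import Pool.Agent.Helper24.HK.Cfg
import Pool.Agent.Helper64.HK.Line
import Pool.Agent.Helper66.HK.Mh

/-!
# Project HK: polynomials in the affine coordinates of `t` which vanish at the rational points with
affine coordinates vanish on the closure
-/

set_option autoImplicit false

namespace Pool.Agent.Helper66.HK

open MvPolynomial Pool.Agent.Helper64.HK Pool.Agent.Helper24.HK
open Pool.Agent.Helper28.HN (I aff)

variable {k m : ℕ} {a : Fin (k + 1) → Fin (m + 1)}

/-- Multilinearity: scaling of all slots. -/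
theorem Mf_scale {S : Type*} [CommRing S] (c : Ix a → S) (i : Fin (m + 1))
    (U V : Fin (k + 1) → I m → S) (lam mu : Fin (k + 1) → S) :
    Mf c i (fun j l => lam j * U j l) (fun j l => mu j * V j l) =
      (∏ j, lam j) * (∏ j : {j // a j = i}, mu j.1) * Mf c i U V := by
  simp only [Mf, Finset.mul_sum]
  refine Finset.sum_congr rfl fun p _ => Finset.sum_congr rfl fun q _ => ?_
  rw [Finset.prod_mul_distrib, Finset.prod_mul_distrib]
  ring

theorem onX_scale {S : Type*} [CommRing S] {c : Ix a → S} {X : Fin (k + 1) → I m → S}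
    (h : OnX c X) (lam : Fin (k + 1) → S) : OnX c fun j l => lam j * X j l := by
  intro i
  have h1 := h i
  unfold Ef at h1 ⊢
  rw [Mf_scale, h1, mul_zero]

/-- Polynomials in the affine coordinates of `t` (multiply the homogenisation by the product of all
first coordinates). -/
theorem z_aff {E : Type*} [Field E] (K : Subfield E) (c : Ix a → E)
    (F : MvPolynomial (Fin k × Fin (m + 1)) E)
    (hF : ∀ Q ∈ Cone (K : Set E) c, (∀ j, Q j 0 = 1) →
      eval (fun q => Q q.1.succ q.2.succ) F = 0)
    {P : Fin (k + 1) → I m → E} (h : P ∈ Zc (K : Set E) c) (h0 : P 0 0 ≠ 0)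
    (h1 : ∀ j : Fin k, P j.succ 0 = 1) : eval (fun q => P q.1.succ q.2.succ) F = 0 := by
  obtain ⟨d, H, hd, hH⟩ := exists_mh F
  have key : eval (fun q : Fin (k + 1) × I m => P q.1 q.2) H = 0 := by
    refine h H fun Q hQ => ?_
    have hQ1 := hH E Q
    by_cases hz : ∃ j, Q j 0 = 0
    · exact hQ1.1 hz
    · push Not at hz
      have h2 := hQ1.2 hz
      rw [aeval_eq_eval, aeval_eq_eval] at h2
      show eval (fun q : Fin (k + 1) × Fin (m + 2) => Q q.1 q.2) H = 0
      rw [h2]
      have h3 := hF (fun j i => (Q j 0)⁻¹ * Q j i) ⟨fun j i => ?_, onX_scale hQ.2 _⟩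
        (fun j => inv_mul_cancel₀ (hz j))
      · have e : (fun q : Fin k × Fin (m + 1) => Q q.1.succ q.2.succ / Q q.1.succ 0) =
            fun q => (Q q.1.succ 0)⁻¹ * Q q.1.succ q.2.succ := by
          funext q
          rw [div_eq_inv_mul]
        rw [e, h3, mul_zero]
      · exact K.mul_mem (K.inv_mem (hQ.1 j 0)) (hQ.1 j i)
  have h5 := aeval_mh_one P (hH E P).2 h0 h1 (by rw [aeval_eq_eval]; exact key)
  rwa [aeval_eq_eval] at h5

end Pool.Agent.Helper66.HK
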